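import Pool.Agent.H43.G.R_seed8.Y957.VK.Stm

set_option autoImplicit false

/-! Project VK, job VMVT: iteration of the recursion. -/

namespace Pool.Agent.Y901.VK

open Finset Filter
open Pool.Agent.Y957.VK

/-- the exponent -/
noncomputable def Ee (r m : ℕ) : ℝ :=
  2 * ((r : ℝ) ^ 2 + r * m) - r * (r + 1) / 2 + r * (r + 1) / 2 * (1 - 1 / (r : ℝ)) ^ m

/-- the defect -/
noncomputable def et (r m : ℕ) : ℝ := (r : ℝ) * (r + 1) / 2 * (1 - 1 / (r : ℝ)) ^ m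

/-- the constant -/
noncomputable def KK (r : ℕ) : ℝ := 2 ^ (r ^ 3) * ((r : ℝ) + 2)

theorem et_bounds {r : ℕ} (hr : 2 ≤ r) (m : ℕ) : 0 ≤ et r m ∧ et r m ≤ (r : ℝ) * (r + 1) / 2 := by
  have hR : (2 : ℝ) ≤ r := by exact_mod_cast hr
  have h0 : (0 : ℝ) ≤ 1 - 1 / (r : ℝ) := by
    rw [sub_nonneg, div_le_one (by linarith)]
    linarith
  have h1 : (1 : ℝ) - 1 / (r : ℝ) ≤ 1 := by
    have : (0 : ℝ) ≤ 1 / (r : ℝ) := by positivity
    linarith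
  have h2 : (1 - 1 / (r : ℝ)) ^ m ≤ 1 := pow_le_one₀ h0 h1
  have h3 : 0 ≤ (1 - 1 / (r : ℝ)) ^ m := pow_nonneg h0 m
  unfold et
  constructor
  · positivity
  · exact mul_le_of_le_one_right (by positivity) h2

theorem Ee_eq (r m : ℕ) : Ee r m = 2 * ((r : ℝ) ^ 2 + r * m) - r * (r + 1) / 2 + et r m := rfl

theorem Ee_nonneg {r : ℕ} (hr : 2 ≤ r) (m : ℕ) : 0 ≤ Ee r m := by
  have hR : (2 : ℝ) ≤ r := by exact_mod_cast hr
  have h1 := (et_bounds hr m).1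
  have h2 : (0 : ℝ) ≤ (r : ℝ) * m := by positivity
  rw [Ee_eq]
  nlinarith

theorem Ee_le {r : ℕ} (hr : 2 ≤ r) (m : ℕ) : Ee r m ≤ 2 * ((r : ℝ) ^ 2 + r * m) := by
  have h1 := (et_bounds hr m).2
  rw [Ee_eq]
  linarith

theorem Ee_succ {r : ℕ} (hr : 2 ≤ r) (m : ℕ) :
    Ee r (m + 1) = r + Ee r m + ((r : ℝ) ^ 2 - et r m) / r := by
  have hR : (2 : ℝ) ≤ r := by exact_mod_cast hr
  have hR0 : (r : ℝ) ≠ 0 := by linarith
  unfold Ee et
  rw [pow_succ (1 - 1 / (r : ℝ)) m]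
  generalize (1 - 1 / (r : ℝ)) ^ m = q
  push_cast
  field_simp
  ring

/-- many primes -/
theorem exists_primes (Z : ℕ) (hZ : Z ≠ 0) (k : ℕ) : ∃ P : Finset ℕ, P.card = k ∧
    ∀ p ∈ P, p.Prime ∧ Z < p ∧ p ≤ 2 ^ k * Z := by
  induction k with
  | zero => exact ⟨∅, rfl, by simp⟩
  | succ k ih =>
    obtain ⟨P, hP1, hP2⟩ := ih
    obtain ⟨p, hp, hp1, hp2⟩ := Nat.exists_prime_lt_and_le_two_mul (2 ^ k * Z) (by positivity)
    have hnot : p ∉ P := fun h => by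
      have := (hP2 p h).2.2
      omega
    refine ⟨insert p P, by rw [card_insert_of_notMem hnot, hP1], ?_⟩
    intro q hq
    have hZ' : Z ≤ 2 ^ k * Z := Nat.le_mul_of_pos_left Z (by positivity)
    rcases mem_insert.1 hq with rfl | hq
    · refine ⟨hp, by omega, ?_⟩
      rw [pow_succ]
      linarith
    · obtain ⟨a, b, c⟩ := hP2 q hq
      refine ⟨a, b, ?_⟩
      rw [pow_succ]
      linarith

/-- the set of primes -/
theorem exists_P {r X : ℕ} (hr : 2 ≤ r) (hX : 1 ≤ X) : ∃ P : Finset ℕ, P.card = r ^ 3 ∧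
    (∀ p ∈ P, p.Prime ∧ r < p ∧ X ≤ p ^ r ∧ (p : ℝ) ≤ KK r * (X : ℝ) ^ (1 / (r : ℝ))) ∧
    X ^ (r * r) < ∏ p ∈ P, p := by
  have hR : (2 : ℝ) ≤ r := by exact_mod_cast hr
  have hX' : (1 : ℝ) ≤ X := by exact_mod_cast hX
  obtain ⟨Y, hY⟩ : ∃ Y : ℝ, Y = (X : ℝ) ^ (1 / (r : ℝ)) := ⟨_, rfl⟩
  have hY1 : 1 ≤ Y := by
    rw [hY]
    exact Real.one_le_rpow hX' (by positivity)
  have hYr : Y ^ r = X := by
    rw [hY, ← Real.rpow_natCast, ← Real.rpow_mul (by linarith), one_div, inv_mul_cancel₀ (by linarith),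
      Real.rpow_one]
  obtain ⟨Z, hZ⟩ : ∃ Z : ℕ, Z = ⌈Y⌉₊ + r := ⟨_, rfl⟩
  have hZY : Y ≤ Z := by
    rw [hZ]
    push_cast
    have := Nat.le_ceil Y
    linarith
  have hZr : r ≤ Z := by omega
  have hZ0 : Z ≠ 0 := by omega
  have hZle : (Z : ℝ) ≤ (r + 2) * Y := by
    rw [hZ]
    push_cast
    have := Nat.ceil_lt_add_one (show 0 ≤ Y by linarith)
    nlinarith
  have hXZ : X ≤ Z ^ r := by
    have h1 : (X : ℝ) ≤ (Z : ℝ) ^ r := by
      rw [← hYr]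
      exact pow_le_pow_left₀ (by linarith) hZY r
    exact_mod_cast h1
  obtain ⟨P, hP1, hP2⟩ := exists_primes Z hZ0 (r ^ 3)
  refine ⟨P, hP1, ?_, ?_⟩
  · intro p hp
    obtain ⟨a, b, c⟩ := hP2 p hp
    refine ⟨a, by omega, hXZ.trans (Nat.pow_le_pow_left b.le r), ?_⟩
    have c' : (p : ℝ) ≤ 2 ^ (r ^ 3) * Z := by exact_mod_cast c
    rw [← hY]
    unfold KK
    refine c'.trans ?_
    rw [mul_assoc]
    exact mul_le_mul_of_nonneg_left hZle (by positivity)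
  · have h1 : (Z + 1) ^ P.card ≤ ∏ p ∈ P, p :=
      Finset.pow_card_le_prod P (fun p => p) (Z + 1) (fun p hp => (hP2 p hp).2.1)
    rw [hP1] at h1
    have h2 : X ^ (r * r) ≤ Z ^ (r ^ 3) := by
      calc X ^ (r * r) ≤ (Z ^ r) ^ (r * r) := Nat.pow_le_pow_left hXZ _
        _ = Z ^ (r ^ 3) := by
            rw [← pow_mul]
            congr 1
            ring
    have h3 : Z ^ (r ^ 3) < (Z + 1) ^ (r ^ 3) :=
      Nat.pow_lt_pow_left (Nat.lt_succ_self Z) (by positivity)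
    omega

theorem KK_ge (r : ℕ) : 1 ≤ KK r := by
  unfold KK
  have h1 : (1 : ℝ) ≤ 2 ^ (r ^ 3) := one_le_pow₀ (by norm_num)
  have h2 : (0 : ℝ) ≤ r := Nat.cast_nonneg r
  nlinarith

/-- one term of the recursion -/
theorem term_le (h1 : S_REC) {r m : ℕ} (hr : 2 ≤ r) {D : ℝ} (hD : 1 ≤ D)
    (ih : ∀ X : ℕ, 1 ≤ X → (J (r ^ 2 + r * m) r X : ℝ) ≤ D * (X : ℝ) ^ Ee r m) {X : ℕ} (hX : 1 ≤ X)
    {p : ℕ} (hp : p.Prime) (hrp : r < p) (hXp : X ≤ p ^ r)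
    (hpK : (p : ℝ) ≤ KK r * (X : ℝ) ^ (1 / (r : ℝ))) :
    (BB (r ^ 2 + r * m) r p X : ℝ) ≤
      (r.factorial : ℝ) * (1 + KK r) ^ Ee r m * KK r ^ (r ^ 2) * D * (X : ℝ) ^ Ee r (m + 1) := by
  have hR : (2 : ℝ) ≤ r := by exact_mod_cast hr
  have hX' : (1 : ℝ) ≤ X := by exact_mod_cast hX
  have hX0 : (0 : ℝ) < X := by linarith
  have hp0 : (0 : ℝ) < p := by exact_mod_cast hp.pos
  have hK := KK_ge r
  have hE := Ee_nonneg hr m
  obtain ⟨e1, e2⟩ := et_bounds hr m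
  have h3 := h1 (r ^ 2 + r * m) r p X (by omega) hp hrp hXp
  have h4 : (BB (r ^ 2 + r * m) r p X : ℝ) ≤ (p : ℝ) ^ (2 * (r ^ 2 + r * m)) *
      ((r.factorial : ℝ) * (p : ℝ) ^ (r * (r - 1) / 2) * (X : ℝ) ^ r *
        (J (r ^ 2 + r * m) r (X / p + 1) : ℝ)) := by exact_mod_cast h3
  -- the mean value for the shorter range
  have h5 : (((X / p + 1 : ℕ) : ℕ) : ℝ) ≤ (1 + KK r) * X / p := by
    have h6 : ((X / p : ℕ) : ℝ) ≤ (X : ℝ) / p := Nat.cast_div_le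
    have h7 : (p : ℝ) ≤ KK r * X := by
      refine hpK.trans (mul_le_mul_of_nonneg_left ?_ (by linarith))
      calc (X : ℝ) ^ (1 / (r : ℝ)) ≤ (X : ℝ) ^ (1 : ℝ) := by
            refine Real.rpow_le_rpow_of_exponent_le hX' ?_
            rw [div_le_one (by linarith)]
            linarith
        _ = X := Real.rpow_one _
    rw [le_div_iff₀ hp0]
    push_cast
    have h8 : ((X / p : ℕ) : ℝ) * p ≤ X := by
      rw [← le_div_iff₀ hp0]
      exact h6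
    nlinarith
  have h6 : (J (r ^ 2 + r * m) r (X / p + 1) : ℝ) ≤
      D * ((1 + KK r) ^ Ee r m * (X : ℝ) ^ Ee r m * (p : ℝ) ^ (-Ee r m)) := by
    refine (ih (X / p + 1) (Nat.le_add_left 1 _)).trans ?_
    refine mul_le_mul_of_nonneg_left ?_ (by linarith)
    calc ((X / p + 1 : ℕ) : ℝ) ^ Ee r m ≤ ((1 + KK r) * X / p) ^ Ee r m :=
          Real.rpow_le_rpow (Nat.cast_nonneg _) h5 hE
      _ = (1 + KK r) ^ Ee r m * (X : ℝ) ^ Ee r m * (p : ℝ) ^ (-Ee r m) := by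
          rw [Real.div_rpow (by positivity) hp0.le, Real.mul_rpow (by positivity) hX0.le,
            Real.rpow_neg hp0.le]
          rfl
  -- the powers of `p`
  have h7 : (p : ℝ) ^ (2 * (r ^ 2 + r * m)) * (p : ℝ) ^ (r * (r - 1) / 2) * (p : ℝ) ^ (-Ee r m) =
      (p : ℝ) ^ ((r : ℝ) ^ 2 - et r m) := by
    have h8 : ((r * (r - 1) / 2 : ℕ) : ℝ) = (r : ℝ) * (r - 1) / 2 := by
      rw [← Nat.choose_two_right, Nat.cast_choose_two]
    rw [← Real.rpow_natCast, ← Real.rpow_natCast, ← Real.rpow_add hp0, ← Real.rpow_add hp0]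
    congr 1
    rw [h8, Ee_eq]
    push_cast
    ring
  have hexp : 0 ≤ (r : ℝ) ^ 2 - et r m := by nlinarith
  have h8 : (p : ℝ) ^ ((r : ℝ) ^ 2 - et r m) ≤
      KK r ^ (r ^ 2) * (X : ℝ) ^ (((r : ℝ) ^ 2 - et r m) / r) := by
    calc (p : ℝ) ^ ((r : ℝ) ^ 2 - et r m) ≤
        (KK r * (X : ℝ) ^ (1 / (r : ℝ))) ^ ((r : ℝ) ^ 2 - et r m) :=
          Real.rpow_le_rpow hp0.le hpK hexp
      _ = KK r ^ ((r : ℝ) ^ 2 - et r m) * (X : ℝ) ^ (((r : ℝ) ^ 2 - et r m) / r) := by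
          rw [Real.mul_rpow (by linarith) (by positivity), ← Real.rpow_mul hX0.le]
          congr 2
          ring
      _ ≤ KK r ^ (r ^ 2) * (X : ℝ) ^ (((r : ℝ) ^ 2 - et r m) / r) := by
          refine mul_le_mul_of_nonneg_right ?_ (by positivity)
          rw [← Real.rpow_natCast (KK r) (r ^ 2)]
          refine Real.rpow_le_rpow_of_exponent_le hK ?_
          push_cast
          linarith
  -- the powers of `X`
  have h9 : (X : ℝ) ^ r * (X : ℝ) ^ Ee r m * (X : ℝ) ^ (((r : ℝ) ^ 2 - et r m) / r) =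
      (X : ℝ) ^ Ee r (m + 1) := by
    rw [← Real.rpow_natCast, ← Real.rpow_add hX0, ← Real.rpow_add hX0, Ee_succ hr]
  have hfac : (0 : ℝ) ≤ (r.factorial : ℝ) := Nat.cast_nonneg _
  have hK1 : (0 : ℝ) ≤ (1 + KK r) ^ Ee r m := Real.rpow_nonneg (by linarith) _
  calc (BB (r ^ 2 + r * m) r p X : ℝ) ≤ (p : ℝ) ^ (2 * (r ^ 2 + r * m)) *
      ((r.factorial : ℝ) * (p : ℝ) ^ (r * (r - 1) / 2) * (X : ℝ) ^ r *
        (J (r ^ 2 + r * m) r (X / p + 1) : ℝ)) := h4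
    _ ≤ (p : ℝ) ^ (2 * (r ^ 2 + r * m)) *
      ((r.factorial : ℝ) * (p : ℝ) ^ (r * (r - 1) / 2) * (X : ℝ) ^ r *
        (D * ((1 + KK r) ^ Ee r m * (X : ℝ) ^ Ee r m * (p : ℝ) ^ (-Ee r m)))) := by
        refine mul_le_mul_of_nonneg_left ?_ (by positivity)
        exact mul_le_mul_of_nonneg_left h6 (by positivity)
    _ = (r.factorial : ℝ) * (1 + KK r) ^ Ee r m * D * ((X : ℝ) ^ r * (X : ℝ) ^ Ee r m) *
        ((p : ℝ) ^ (2 * (r ^ 2 + r * m)) * (p : ℝ) ^ (r * (r - 1) / 2) * (p : ℝ) ^ (-Ee r m)) := by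
        ring
    _ = (r.factorial : ℝ) * (1 + KK r) ^ Ee r m * D * ((X : ℝ) ^ r * (X : ℝ) ^ Ee r m) *
        (p : ℝ) ^ ((r : ℝ) ^ 2 - et r m) := by rw [h7]
    _ ≤ (r.factorial : ℝ) * (1 + KK r) ^ Ee r m * D * ((X : ℝ) ^ r * (X : ℝ) ^ Ee r m) *
        (KK r ^ (r ^ 2) * (X : ℝ) ^ (((r : ℝ) ^ 2 - et r m) / r)) := by
        refine mul_le_mul_of_nonneg_left h8 ?_
        have hD0 : 0 ≤ D := by linarith
        positivity
    _ = (r.factorial : ℝ) * (1 + KK r) ^ Ee r m * KK r ^ (r ^ 2) * D *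
        ((X : ℝ) ^ r * (X : ℝ) ^ Ee r m * (X : ℝ) ^ (((r : ℝ) ^ 2 - et r m) / r)) := by ring
    _ = _ := by rw [h9]

/-- the factor in one step -/
noncomputable def FF (r m : ℕ) : ℝ := ((r : ℝ) ^ 3 + 1) * ((r : ℝ) ^ (2 * (r ^ 2 + r * m + r)) +
  (r : ℝ) ^ 3 * (((r ^ 2 + r * m + r).choose r : ℝ) ^ 2 *
    ((r.factorial : ℝ) * (1 + KK r) ^ Ee r m * KK r ^ (r ^ 2))))

/-- one step -/
theorem step (h1 : S_REC) (h2 : S_COND) {r m : ℕ} (hr : 2 ≤ r) {D : ℝ} (hD : 1 ≤ D)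
    (ih : ∀ X : ℕ, 1 ≤ X → (J (r ^ 2 + r * m) r X : ℝ) ≤ D * (X : ℝ) ^ Ee r m) {X : ℕ}
    (hX : 1 ≤ X) :
    (J (r ^ 2 + r * (m + 1)) r X : ℝ) ≤ FF r m * D * (X : ℝ) ^ Ee r (m + 1) := by
  have hR : (2 : ℝ) ≤ r := by exact_mod_cast hr
  have hX' : (1 : ℝ) ≤ X := by exact_mod_cast hX
  obtain ⟨P, hP1, hP2, hP3⟩ := exists_P hr hX
  have h3 := h2 (r ^ 2 + r * m) r X hr hX P (fun p hp => (hP2 p hp).1) hP3
  have e1 : r ^ 2 + r * (m + 1) = r ^ 2 + r * m + r := by ring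
  rw [e1]
  have h4 : (J (r ^ 2 + r * m + r) r X : ℝ) ≤ ((P.card : ℝ) + 1) *
      (((r : ℝ) ^ (r ^ 2 + r * m + r) * (X : ℝ) ^ (r - 1)) ^ 2 +
      ∑ p ∈ P, ((r ^ 2 + r * m + r).choose r : ℝ) ^ 2 * (BB (r ^ 2 + r * m) r p X : ℝ)) := by
    exact_mod_cast h3
  rw [hP1] at h4
  push_cast at h4
  obtain ⟨T, hT⟩ : ∃ T : ℝ, T = (r.factorial : ℝ) * (1 + KK r) ^ Ee r m * KK r ^ (r ^ 2) :=
    ⟨_, rfl⟩
  have hK := KK_ge r
  have hT0 : 0 ≤ T := by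
    rw [hT]
    have : (0 : ℝ) ≤ (1 + KK r) ^ Ee r m := Real.rpow_nonneg (by linarith) _
    positivity
  have h5 : ∑ p ∈ P, ((r ^ 2 + r * m + r).choose r : ℝ) ^ 2 * (BB (r ^ 2 + r * m) r p X : ℝ) ≤
      (r : ℝ) ^ 3 * (((r ^ 2 + r * m + r).choose r : ℝ) ^ 2 * (T * D * (X : ℝ) ^ Ee r (m + 1))) := by
    have h6 : ∀ p ∈ P, ((r ^ 2 + r * m + r).choose r : ℝ) ^ 2 * (BB (r ^ 2 + r * m) r p X : ℝ) ≤
        ((r ^ 2 + r * m + r).choose r : ℝ) ^ 2 * (T * D * (X : ℝ) ^ Ee r (m + 1)) := by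
      intro p hp
      obtain ⟨a, b, c, d⟩ := hP2 p hp
      refine mul_le_mul_of_nonneg_left ?_ (by positivity)
      rw [hT]
      exact term_le h1 hr hD ih hX a b c d
    refine (Finset.sum_le_card_nsmul P _ _ h6).trans (le_of_eq ?_)
    rw [nsmul_eq_mul, hP1]
    push_cast
    rfl
  have h7 : ((r : ℝ) ^ (r ^ 2 + r * m + r) * (X : ℝ) ^ (r - 1)) ^ 2 ≤
      (r : ℝ) ^ (2 * (r ^ 2 + r * m + r)) * D * (X : ℝ) ^ Ee r (m + 1) := by
    have h8 : ((X : ℝ) ^ (r - 1)) ^ 2 ≤ (X : ℝ) ^ Ee r (m + 1) := by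
      rw [← pow_mul, ← Real.rpow_natCast]
      refine Real.rpow_le_rpow_of_exponent_le hX' ?_
      rw [Ee_eq]
      have h9 := (et_bounds hr (m + 1)).1
      have h10 : (((r - 1) * 2 : ℕ) : ℝ) = ((r : ℝ) - 1) * 2 := by
        rw [Nat.cast_mul, Nat.cast_sub (by omega)]
        push_cast
        ring
      rw [h10]
      push_cast
      have h11 : (0 : ℝ) ≤ (r : ℝ) * m := by positivity
      nlinarith
    calc ((r : ℝ) ^ (r ^ 2 + r * m + r) * (X : ℝ) ^ (r - 1)) ^ 2 =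
        (r : ℝ) ^ (2 * (r ^ 2 + r * m + r)) * 1 * ((X : ℝ) ^ (r - 1)) ^ 2 := by
          rw [mul_pow, ← pow_mul, mul_one]
          congr 2
          ring
      _ ≤ (r : ℝ) ^ (2 * (r ^ 2 + r * m + r)) * D * (X : ℝ) ^ Ee r (m + 1) := by
          refine mul_le_mul ?_ h8 (by positivity) (by positivity)
          exact mul_le_mul_of_nonneg_left hD (by positivity)
  calc (J (r ^ 2 + r * m + r) r X : ℝ) ≤ ((r : ℝ) ^ 3 + 1) *
      (((r : ℝ) ^ (r ^ 2 + r * m + r) * (X : ℝ) ^ (r - 1)) ^ 2 +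
      ∑ p ∈ P, ((r ^ 2 + r * m + r).choose r : ℝ) ^ 2 * (BB (r ^ 2 + r * m) r p X : ℝ)) := h4
    _ ≤ ((r : ℝ) ^ 3 + 1) *
      ((r : ℝ) ^ (2 * (r ^ 2 + r * m + r)) * D * (X : ℝ) ^ Ee r (m + 1) +
      (r : ℝ) ^ 3 * (((r ^ 2 + r * m + r).choose r : ℝ) ^ 2 *
        (T * D * (X : ℝ) ^ Ee r (m + 1)))) := by
        refine mul_le_mul_of_nonneg_left ?_ (by positivity)
        exact add_le_add h7 h5
    _ = _ := by
        unfold FF
        rw [hT]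
        ring

theorem pow_le_exp {x y : ℝ} (hx : 0 ≤ x) (h : x ≤ Real.exp y) (k : ℕ) : x ^ k ≤ Real.exp (k * y) := by
  rw [Real.exp_nat_mul]
  exact pow_le_pow_left₀ hx h k

/-- the bound for the factor -/
theorem FF_le {r : ℕ} (hr : 2 ≤ r) (m : ℕ) : FF r m ≤ Real.exp (9 * ((r : ℝ) + m + 2) ^ 5) := by
  have hR : (2 : ℝ) ≤ r := by exact_mod_cast hr
  have hM : (0 : ℝ) ≤ m := Nat.cast_nonneg m
  obtain ⟨N, hN⟩ : ∃ N : ℝ, N = (r : ℝ) + m + 2 := ⟨_, rfl⟩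
  rw [← hN]
  have hN1 : 1 ≤ N := by linarith
  have hrN : (r : ℝ) ≤ N := by linarith
  have hN0 : 0 ≤ N := by linarith
  have p2 : N ^ 2 ≤ N ^ 5 := pow_le_pow_right₀ hN1 (by norm_num)
  have p3 : N ^ 3 ≤ N ^ 5 := pow_le_pow_right₀ hN1 (by norm_num)
  have r2 : (r : ℝ) ^ 2 ≤ N ^ 2 := pow_le_pow_left₀ (by linarith) hrN 2
  have r3 : (r : ℝ) ^ 3 ≤ N ^ 3 := pow_le_pow_left₀ (by linarith) hrN 3
  have hsr : (r : ℝ) ^ 2 + r * m + r ≤ N ^ 2 := by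
    rw [hN]
    nlinarith [mul_nonneg (show (0 : ℝ) ≤ r by linarith) hM]
  -- the factors
  have a1 : (r : ℝ) ^ 3 + 1 ≤ Real.exp (N ^ 5) :=
    (Real.add_one_le_exp _).trans (Real.exp_le_exp.2 (r3.trans p3))
  have a3 : (r : ℝ) ^ 3 ≤ Real.exp (N ^ 5) := by linarith
  have hre : (r : ℝ) ≤ Real.exp r := by
    have := Real.add_one_le_exp (r : ℝ)
    linarith
  have a2 : (r : ℝ) ^ (2 * (r ^ 2 + r * m + r)) ≤ Real.exp (2 * N ^ 5) := by
    refine (pow_le_exp (by linarith) hre _).trans (Real.exp_le_exp.2 ?_)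
    push_cast
    have : ((r : ℝ) ^ 2 + r * m + r) * r ≤ N ^ 2 * N := mul_le_mul hsr hrN (by linarith) (by positivity)
    nlinarith
  have he2 : (2 : ℝ) ≤ Real.exp 1 := by
    have := Real.add_one_le_exp (1 : ℝ)
    linarith
  have a4 : ((r ^ 2 + r * m + r).choose r : ℝ) ^ 2 ≤ Real.exp (2 * N ^ 5) := by
    have h1 : ((r ^ 2 + r * m + r).choose r : ℝ) ≤ 2 ^ (r ^ 2 + r * m + r) := by
      exact_mod_cast Nat.choose_le_two_pow _ _
    have h2 : ((r ^ 2 + r * m + r).choose r : ℝ) ≤ Real.exp (N ^ 5) := by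
      refine h1.trans ((pow_le_exp (by norm_num) he2 _).trans (Real.exp_le_exp.2 ?_))
      push_cast
      linarith
    calc ((r ^ 2 + r * m + r).choose r : ℝ) ^ 2 ≤ Real.exp ((2 : ℕ) * N ^ 5) :=
          pow_le_exp (Nat.cast_nonneg _) h2 2
      _ = Real.exp (2 * N ^ 5) := by norm_num
  have a5 : (r.factorial : ℝ) ≤ Real.exp (N ^ 5) := by
    have h1 : (r.factorial : ℝ) ≤ (r : ℝ) ^ r := by exact_mod_cast Nat.factorial_le_pow r
    refine h1.trans ((pow_le_exp (by linarith) hre _).trans (Real.exp_le_exp.2 ?_))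
    nlinarith
  have hK := KK_ge r
  have hKe : 1 + KK r ≤ Real.exp (N ^ 3) := by
    have h1 : KK r ≤ Real.exp ((r : ℝ) ^ 3) * Real.exp (r + 1) := by
      unfold KK
      refine mul_le_mul ?_ ?_ (by linarith) (Real.exp_nonneg _)
      · refine (pow_le_exp (by norm_num) he2 _).trans (Real.exp_le_exp.2 ?_)
        push_cast
        linarith
      · have := Real.add_one_le_exp ((r : ℝ) + 1)
        linarith
    calc 1 + KK r ≤ 2 * KK r := by linarith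
      _ ≤ Real.exp 1 * (Real.exp ((r : ℝ) ^ 3) * Real.exp (r + 1)) :=
          mul_le_mul he2 h1 (by linarith) (Real.exp_nonneg _)
      _ = Real.exp (1 + ((r : ℝ) ^ 3 + (r + 1))) := by
          rw [Real.exp_add 1, Real.exp_add ((r : ℝ) ^ 3)]
      _ ≤ Real.exp (N ^ 3) := by
          refine Real.exp_le_exp.2 ?_
          have h2 : ((r : ℝ) + 2) ^ 3 ≤ N ^ 3 := pow_le_pow_left₀ (by linarith) (by linarith) 3
          nlinarith
  have a6 : (1 + KK r) ^ Ee r m ≤ Real.exp (2 * N ^ 5) := by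
    have hE := Ee_nonneg hr m
    have hE2 := Ee_le hr m
    calc (1 + KK r) ^ Ee r m ≤ Real.exp (N ^ 3) ^ Ee r m :=
          Real.rpow_le_rpow (by linarith) hKe hE
      _ = Real.exp (N ^ 3 * Ee r m) := (Real.exp_mul _ _).symm
      _ ≤ Real.exp (2 * N ^ 5) := by
          refine Real.exp_le_exp.2 ?_
          have h1 : Ee r m ≤ 2 * N ^ 2 := by linarith
          calc N ^ 3 * Ee r m ≤ N ^ 3 * (2 * N ^ 2) := mul_le_mul_of_nonneg_left h1 (by positivity)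
            _ = 2 * N ^ 5 := by ring
  have a7 : KK r ^ (r ^ 2) ≤ Real.exp (N ^ 5) := by
    refine (pow_le_exp (by linarith) (show KK r ≤ Real.exp (N ^ 3) by linarith) _).trans
      (Real.exp_le_exp.2 ?_)
    push_cast
    calc (r : ℝ) ^ 2 * N ^ 3 ≤ N ^ 2 * N ^ 3 := mul_le_mul_of_nonneg_right r2 (by positivity)
      _ = N ^ 5 := by ring
  have hK1 : (0 : ℝ) ≤ (1 + KK r) ^ Ee r m := Real.rpow_nonneg (by linarith) _
  have hf : (0 : ℝ) ≤ (r.factorial : ℝ) := Nat.cast_nonneg _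
  have hKp : (0 : ℝ) ≤ KK r ^ (r ^ 2) := pow_nonneg (by linarith) _
  obtain ⟨e, he⟩ : ∃ e : ℝ, e = Real.exp (N ^ 5) := ⟨_, rfl⟩
  have he1 : 1 ≤ e := by
    rw [he]
    exact Real.one_le_exp (by positivity)
  have hee : Real.exp (2 * N ^ 5) = e ^ 2 := by
    rw [he, ← Real.exp_nat_mul]
    norm_num
  have h9 : Real.exp (9 * N ^ 5) = e ^ 9 := by
    rw [he, ← Real.exp_nat_mul]
    norm_num
  have h2e : 2 ≤ e := by
    rw [he]
    have := Real.add_one_le_exp (N ^ 5)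
    have : 1 ≤ N ^ 5 := one_le_pow₀ hN1
    linarith
  rw [hee] at a2 a4 a6
  rw [← he] at a1 a3 a5 a7
  rw [h9]
  have e0 : 0 ≤ e := by linarith
  have b1 : (r.factorial : ℝ) * (1 + KK r) ^ Ee r m * KK r ^ (r ^ 2) ≤ e * e ^ 2 * e := by
    refine mul_le_mul (mul_le_mul a5 a6 hK1 e0) a7 hKp (by positivity)
  have b2 : ((r ^ 2 + r * m + r).choose r : ℝ) ^ 2 *
      ((r.factorial : ℝ) * (1 + KK r) ^ Ee r m * KK r ^ (r ^ 2)) ≤ e ^ 2 * (e * e ^ 2 * e) :=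
    mul_le_mul a4 b1 (by positivity) (by positivity)
  have b3 : (r : ℝ) ^ 3 * (((r ^ 2 + r * m + r).choose r : ℝ) ^ 2 *
      ((r.factorial : ℝ) * (1 + KK r) ^ Ee r m * KK r ^ (r ^ 2))) ≤ e * (e ^ 2 * (e * e ^ 2 * e)) :=
    mul_le_mul a3 b2 (by positivity) e0
  unfold FF
  calc ((r : ℝ) ^ 3 + 1) * ((r : ℝ) ^ (2 * (r ^ 2 + r * m + r)) +
      (r : ℝ) ^ 3 * (((r ^ 2 + r * m + r).choose r : ℝ) ^ 2 *
      ((r.factorial : ℝ) * (1 + KK r) ^ Ee r m * KK r ^ (r ^ 2)))) ≤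
      e * (e ^ 2 + e * (e ^ 2 * (e * e ^ 2 * e))) :=
        mul_le_mul a1 (add_le_add a2 b3) (by positivity) e0
    _ = e ^ 3 + e ^ 8 := by ring
    _ ≤ e ^ 8 + e ^ 8 := by
        have := pow_le_pow_right₀ he1 (show 3 ≤ 8 by norm_num)
        linarith
    _ = 2 * e ^ 8 := by ring
    _ ≤ e * e ^ 8 := mul_le_mul_of_nonneg_right h2e (by positivity)
    _ = e ^ 9 := by ring

theorem card_Tu (s X : ℕ) : (Tu s X).card = X ^ s := by
  unfold Tu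
  rw [Fintype.card_piFinset]
  simp

theorem J_le (s r X : ℕ) : J s r X ≤ X ^ (2 * s) := by
  unfold J
  refine (Finset.card_filter_le _ _).trans (le_of_eq ?_)
  rw [card_product, card_Tu, ← pow_add]
  congr 1
  ring

/-- the induction -/
theorem main (h1 : S_REC) (h2 : S_COND) {r : ℕ} (hr : 2 ≤ r) (m : ℕ) : ∀ X : ℕ, 1 ≤ X →
    (J (r ^ 2 + r * m) r X : ℝ) ≤ Real.exp (9 * m * ((r : ℝ) + m + 2) ^ 5) * (X : ℝ) ^ Ee r m := by
  have hR : (2 : ℝ) ≤ r := by exact_mod_cast hr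
  induction m with
  | zero =>
    intro X hX
    have h3 : (J (r ^ 2 + r * 0) r X : ℝ) ≤ (X : ℝ) ^ (2 * (r ^ 2 + r * 0)) := by
      exact_mod_cast J_le (r ^ 2 + r * 0) r X
    have h4 : Ee r 0 = ((2 * (r ^ 2 + r * 0) : ℕ) : ℝ) := by
      unfold Ee
      push_cast
      ring
    rw [h4, Real.rpow_natCast]
    simpa using h3
  | succ m ih =>
    intro X hX
    have hM : (0 : ℝ) ≤ m := Nat.cast_nonneg m
    have h3 := step h1 h2 hr (Real.one_le_exp (by positivity)) ih hX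
    refine h3.trans ?_
    refine mul_le_mul_of_nonneg_right ?_ (by positivity)
    calc FF r m * Real.exp (9 * m * ((r : ℝ) + m + 2) ^ 5) ≤
        Real.exp (9 * ((r : ℝ) + m + 2) ^ 5) * Real.exp (9 * m * ((r : ℝ) + m + 2) ^ 5) :=
          mul_le_mul_of_nonneg_right (FF_le hr m) (Real.exp_nonneg _)
      _ = Real.exp (9 * (m + 1) * ((r : ℝ) + m + 2) ^ 5) := by
          rw [← Real.exp_add]
          congr 1
          ring
      _ ≤ Real.exp (9 * ((m + 1 : ℕ) : ℝ) * ((r : ℝ) + ((m + 1 : ℕ) : ℝ) + 2) ^ 5) := by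
          refine Real.exp_le_exp.2 ?_
          push_cast
          refine mul_le_mul_of_nonneg_left ?_ (by positivity)
          exact pow_le_pow_left₀ (by positivity) (by linarith) 5

theorem vmvt (h1 : S_REC) (h2 : S_COND) : S_VMVT := by
  obtain ⟨C, hC⟩ : ∃ C : ℕ, C = 576 := ⟨_, rfl⟩
  refine ⟨C, fun r m X hr hX => ?_⟩
  have hR : (2 : ℝ) ≤ r := by exact_mod_cast hr
  have hM : (0 : ℝ) ≤ m := Nat.cast_nonneg m
  have h5 := main h1 h2 hr m X hX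
  unfold Ee at h5
  refine h5.trans ?_
  refine mul_le_mul_of_nonneg_right ?_ (Real.rpow_nonneg (Nat.cast_nonneg X) _)
  refine Real.exp_le_exp.2 ?_
  have h3 : ((r : ℝ) + m) ^ 6 ≤ ((r : ℝ) + m) ^ C := pow_le_pow_right₀ (by linarith) (by omega)
  have h4 : (C : ℝ) = 576 := by rw [hC]; norm_num
  rw [h4]
  calc 9 * (m : ℝ) * ((r : ℝ) + m + 2) ^ 5 ≤ 9 * (2 * ((r : ℝ) + m)) * (2 * ((r : ℝ) + m)) ^ 5 := by
        refine mul_le_mul ?_ (pow_le_pow_left₀ (by positivity) (by linarith) 5) (by positivity)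
          (by positivity)
        linarith
    _ = 576 * ((r : ℝ) + m) ^ 6 := by ring
    _ ≤ 576 * ((r : ℝ) + m) ^ C := by linarith

end Pool.Agent.Y901.VK
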